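import Pool.Agent.Q274.HD.Stm2

set_option autoImplicit false

/-! # Job TPT of project HD: local points at the prime `2` -/

namespace Pool.Agent.Q111.HD

open Pool.Agent.TH344.JG (LocJ)
open Q182.JQ.ELL (Pt pt_LocJ hens)

theorem sq8 (z : ℚ_[2]) (h : ‖z - 1‖ ≤ 1 / 8) : IsSquare z ∧ z ≠ 0 := by
  have h8 : ‖(8 : ℚ_[2])‖ = 1 / 8 := by
    have h1 : ((2 : ℕ) : ℚ_[2]) ^ 3 = 8 := by norm_num
    rw [← h1, norm_pow, Padic.norm_p]
    norm_num
  have h80 : (8 : ℚ_[2]) ≠ 0 := by norm_num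
  constructor
  · have h1 : ‖(z - 1) / 8‖ ≤ 1 := by
      rw [norm_div, h8, div_le_one (by norm_num)]
      exact h
    obtain ⟨w, hw⟩ : ∃ w : ℤ_[2], (w : ℚ_[2]) = (z - 1) / 8 := ⟨⟨_, h1⟩, rfl⟩
    obtain ⟨r, hr⟩ := hens 2 w
    refine ⟨(r : ℚ_[2]), ?_⟩
    have h6 := congrArg (fun t : ℤ_[2] => (t : ℚ_[2])) hr
    have h7 : ((((2 : ℕ) : ℤ_[2]) : ℤ_[2]) : ℚ_[2]) = 2 := by
      have := PadicInt.coe_natCast (p := 2) 2
      exact_mod_cast this
    have h9 : (((4 : ℤ_[2]) : ℤ_[2]) : ℚ_[2]) = 4 := by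
      have := PadicInt.coe_natCast (p := 2) 4
      exact_mod_cast this
    simp only [PadicInt.coe_add, PadicInt.coe_mul, PadicInt.coe_one, h7, h9] at h6
    rw [← h6, hw]
    field_simp
    ring
  · rintro rfl
    rw [zero_sub, norm_neg, norm_one] at h
    norm_num at h

theorem nint (z : ℤ) : ‖(z : ℚ_[2])‖ ≤ 1 := Padic.norm_int_le_one z

theorem sqint (w : ℤ) : IsSquare ((1 + 8 * w : ℤ) : ℚ_[2]) := by
  refine (sq8 _ ?_).1
  have h8 : ‖(8 : ℚ_[2])‖ = 1 / 8 := by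
    have h1 : ((2 : ℕ) : ℚ_[2]) ^ 3 = 8 := by norm_num
    rw [← h1, norm_pow, Padic.norm_p]
    norm_num
  have h1 : ((1 + 8 * w : ℤ) : ℚ_[2]) - 1 = 8 * (w : ℚ_[2]) := by push_cast; ring
  rw [h1, norm_mul, h8]
  have := nint w
  linarith

/-- an integer of even valuation is in one of four classes -/
theorem cls (d : ℤ) (hd : d ≠ 0) (he : Even (padicValInt 2 d)) :
    IsSquare ((d : ℤ) : ℚ_[2]) ∨ IsSquare ((d * -1 : ℤ) : ℚ_[2]) ∨
      IsSquare ((d * 11 : ℤ) : ℚ_[2]) ∨ IsSquare ((d * 5 : ℤ) : ℚ_[2]) := by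
  obtain ⟨k, hk⟩ := he
  have h1 : (2 : ℤ) ^ padicValInt 2 d ∣ d := by
    have := padicValInt_dvd (p := 2) d
    exact_mod_cast this
  obtain ⟨u, hu⟩ := h1
  have hu2 : ¬ (2 : ℤ) ∣ u := by
    rintro ⟨v, hv⟩
    have h2 : ((2 : ℕ) : ℤ) ^ (padicValInt 2 d + 1) ∣ d := ⟨v, by
      nth_rewrite 1 [hu]
      rw [hv]
      push_cast
      ring⟩
    rw [padicValInt_dvd_iff] at h2
    rcases h2 with h2 | h2
    · exact hd h2
    · omega
  have hd2 : (d : ℚ_[2]) = (2 ^ k) ^ 2 * (u : ℚ_[2]) := by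
    have h3 : d = (2 ^ k) ^ 2 * u := by
      rw [← pow_mul, mul_two, ← hk]
      exact hu
    rw [h3]
    push_cast
    ring
  have key : ∀ e : ℤ, (∃ w, u * e = 1 + 8 * w) → IsSquare ((d * e : ℤ) : ℚ_[2]) := by
    rintro e ⟨w, hw⟩
    obtain ⟨r, hr⟩ := sqint w
    rw [← hw] at hr
    refine ⟨2 ^ k * r, ?_⟩
    push_cast at hr ⊢
    rw [hd2, mul_assoc, hr]
    ring
  have hm : u % 8 = 1 ∨ u % 8 = 3 ∨ u % 8 = 5 ∨ u % 8 = 7 := by omega
  rcases hm with h | h | h | h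
  · left
    have := key 1 ⟨u / 8, by omega⟩
    rwa [mul_one] at this
  · right; right; left
    exact key 11 ⟨(u * 11 - 1) / 8, by omega⟩
  · right; right; right
    exact key 5 ⟨(u * 5 - 1) / 8, by omega⟩
  · right; left
    exact key (-1) ⟨(u * (-1) - 1) / 8, by omega⟩

theorem prod3 {M : Type*} [CommMonoid M] (F : Fin 3 → M) {i j m : Fin 3} (h1 : i ≠ j)
    (h2 : i ≠ m) (h3 : j ≠ m) : ∏ l, F l = F i * F j * F m := by
  have h : (Finset.univ : Finset (Fin 3)) = {i, j, m} := by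
    revert i j m
    decide
  rw [h, Finset.prod_insert (by simp [h1, h2]), Finset.prod_insert (by simp [h3]),
    Finset.prod_singleton, mul_assoc]

theorem cases3 : ∀ i j m l : Fin 3, i ≠ j → i ≠ m → j ≠ m → l = i ∨ l = j ∨ l = m := by
  decide

theorem sq_mul {a b : ℚ_[2]} (ha : IsSquare a) (hb : IsSquare b) : IsSquare (a * b) := by
  obtain ⟨r, rfl⟩ := ha
  obtain ⟨s, rfl⟩ := hb
  exact ⟨r * s, by ring⟩

/-- the point -/
theorem point (b : Fin 3 → ℤ) (i j m : Fin 3) (hij : i ≠ j) (him : i ≠ m) (hjm : j ≠ m)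
    (hb : Function.Injective b) (h5 : IsSquare ((5 * (b i - b m) : ℤ) : ℚ_[2]))
    (h16 : ‖((b i - b j : ℤ) : ℚ_[2])‖ ≤ ‖((16 * (b i - b m) : ℤ) : ℚ_[2])‖)
    (d : Fin 3 → ℤ) (hd : ∀ j, d j ≠ 0) (hm : IsSquare ((d m : ℤ) : ℚ_[2]))
    (hdd : IsSquare ((d i * d j : ℤ) : ℚ_[2])) (X : ℚ_[2]) (hX1 : 1 ≤ ‖X‖)
    (hX5 : IsSquare (X + 5)) (hX50 : X + 5 ≠ 0) (hXd : IsSquare (X * (d i : ℚ_[2]))) :
    LocJ ℚ_[2] b d := by
  have hX0 : X ≠ 0 := by
    rintro rfl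
    rw [norm_zero] at hX1
    exact absurd hX1 (by norm_num)
  obtain ⟨g, hg⟩ := h5
  have hbm : (b i : ℚ_[2]) - b m ≠ 0 := by
    rw [sub_ne_zero]
    exact fun h => him (hb (Int.cast_injective h))
  have h50 : (5 : ℚ_[2]) ≠ 0 := by norm_num
  obtain ⟨γ, hγ⟩ : ∃ γ : ℚ_[2], (b i : ℚ_[2]) - b m = 5 * γ ^ 2 := by
    refine ⟨g / 5, ?_⟩
    push_cast at hg
    field_simp
    linear_combination hg
  have hγ0 : γ ≠ 0 := by
    rintro rfl
    apply hbm
    rw [hγ]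
    ring
  obtain ⟨β, hβ⟩ : ∃ β : ℚ_[2], (b i : ℚ_[2]) - b j = β * γ ^ 2 := by
    refine ⟨((b i : ℚ_[2]) - b j) / γ ^ 2, ?_⟩
    field_simp
  have hn5 : ‖(5 : ℚ_[2])‖ = 1 := by
    have h1 : ‖((5 : ℤ) : ℚ_[2])‖ = 1 := by
      rw [Padic.norm_intCast_eq_one_iff]
      decide
    exact_mod_cast h1
  have hn16 : ‖(16 : ℚ_[2])‖ = 1 / 16 := by
    have h1 : ((2 : ℕ) : ℚ_[2]) ^ 4 = 16 := by norm_num
    rw [← h1, norm_pow, Padic.norm_p]
    norm_num
  have hβn : ‖β‖ ≤ 1 / 16 := by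
    push_cast at h16
    rw [hγ, hβ, norm_mul, norm_mul, norm_mul, hn5, hn16, one_mul] at h16
    exact le_of_mul_le_mul_right h16 (norm_pos_iff.2 (pow_ne_zero 2 hγ0))
  -- X (X + β) is a square
  have hXβ : IsSquare (X * (X + β)) ∧ X + β ≠ 0 := by
    have h1 : ‖(1 + β / X) - 1‖ ≤ 1 / 8 := by
      rw [add_sub_cancel_left, norm_div, div_le_iff₀ (by linarith)]
      linarith
    obtain ⟨⟨r, hr⟩, h3⟩ := sq8 _ h1
    refine ⟨⟨X * r, ?_⟩, ?_⟩
    · have h4 : X * (X + β) = X ^ 2 * (1 + β / X) := by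
        field_simp
      rw [h4, hr]
      ring
    · intro h0
      apply h3
      have h4 : 1 + β / X = (X + β) / X := by field_simp
      rw [h4, h0, zero_div]
  obtain ⟨hs, hβ0⟩ := hXβ
  apply pt_LocJ
  obtain ⟨r1, hr1⟩ := hs
  obtain ⟨r2, hr2⟩ := hX5
  have e1 : (b i : ℚ_[2]) + X * γ ^ 2 - b i = X * γ ^ 2 := by ring
  have e2 : (b i : ℚ_[2]) + X * γ ^ 2 - b m = (X + 5) * γ ^ 2 := by
    linear_combination hγ
  have e3 : (b i : ℚ_[2]) + X * γ ^ 2 - b j = (X + β) * γ ^ 2 := by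
    linear_combination hβ
  have hγs : IsSquare (γ ^ 2) := ⟨γ, pow_two γ⟩
  refine ⟨(b i : ℚ_[2]) + X * γ ^ 2, r1 * r2 * γ ^ 3, ?_, ?_, ?_⟩
  · refine mul_ne_zero (mul_ne_zero ?_ ?_) (pow_ne_zero _ hγ0)
    · rintro rfl
      rw [mul_zero] at hr1
      exact mul_ne_zero hX0 hβ0 hr1
    · rintro rfl
      rw [mul_zero] at hr2
      exact hX50 hr2
  · rw [prod3 _ hij him hjm, e1, e2, e3]
    linear_combination -(X + 5) * γ ^ 6 * hr1 - r1 * r1 * γ ^ 6 * hr2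
  · intro l
    have hl : l = i ∨ l = j ∨ l = m := cases3 i j m l hij him hjm
    rcases hl with rfl | rfl | rfl
    · change IsSquare (((b l : ℚ_[2]) + X * γ ^ 2 - b l) * (d l : ℚ_[2]))
      rw [e1]
      have := sq_mul hXd hγs
      rwa [show X * γ ^ 2 * (d l : ℚ_[2]) = X * (d l : ℚ_[2]) * γ ^ 2 by ring]
    · change IsSquare (((b i : ℚ_[2]) + X * γ ^ 2 - b l) * (d l : ℚ_[2]))
      rw [e3]
      obtain ⟨t, ht⟩ := hXd
      obtain ⟨q, hq⟩ := hdd
      have hdi : (d i : ℚ_[2]) ≠ 0 := Int.cast_ne_zero.2 (hd i)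
      have ht0 : X * (d i : ℚ_[2]) ≠ 0 := mul_ne_zero hX0 hdi
      refine ⟨γ * r1 * t * q / (X * (d i : ℚ_[2])), ?_⟩
      rw [div_mul_div_comm, eq_div_iff (mul_ne_zero ht0 ht0)]
      push_cast at hq
      calc (X + β) * γ ^ 2 * (d l : ℚ_[2]) * (X * (d i : ℚ_[2]) * (X * (d i : ℚ_[2])))
          = γ ^ 2 * (X * (X + β)) * (X * (d i : ℚ_[2])) * ((d i : ℚ_[2]) * d l) := by ring
        _ = γ ^ 2 * (r1 * r1) * (t * t) * (q * q) := by rw [hr1, ht, hq]
        _ = _ := by ring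
    · change IsSquare (((b i : ℚ_[2]) + X * γ ^ 2 - b l) * (d l : ℚ_[2]))
      rw [e2]
      exact sq_mul (sq_mul ⟨r2, hr2⟩ hγs) hm

/-- the point, general version -/
theorem point2 (b : Fin 3 → ℤ) (i j m : Fin 3) (hij : i ≠ j) (him : i ≠ m) (hjm : j ≠ m)
    (d : Fin 3 → ℤ) (hd : ∀ j, d j ≠ 0) (hm : IsSquare ((d m : ℤ) : ℚ_[2]))
    (hdd : IsSquare ((d i * d j : ℤ) : ℚ_[2])) (X P : ℚ_[2]) (hX0 : X ≠ 0) (hP0 : P ≠ 0)
    (hXP : X + ((b i : ℚ_[2]) - b m) = P ^ 2) (hs : IsSquare (X * (X + ((b i : ℚ_[2]) - b j))))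
    (hβ0 : X + ((b i : ℚ_[2]) - b j) ≠ 0) (hXd : IsSquare (X * (d i : ℚ_[2]))) :
    LocJ ℚ_[2] b d := by
  obtain ⟨r1, hr1⟩ := hs
  apply pt_LocJ
  have e1 : (b i : ℚ_[2]) + X - b i = X := by ring
  have e2 : (b i : ℚ_[2]) + X - b m = P ^ 2 := by linear_combination hXP
  have e3 : (b i : ℚ_[2]) + X - b j = X + ((b i : ℚ_[2]) - b j) := by ring
  refine ⟨(b i : ℚ_[2]) + X, r1 * P, ?_, ?_, ?_⟩
  · refine mul_ne_zero ?_ hP0
    rintro rfl
    rw [mul_zero] at hr1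
    exact mul_ne_zero hX0 hβ0 hr1
  · rw [prod3 _ hij him hjm, e1, e2, e3]
    linear_combination -P ^ 2 * hr1
  · intro l
    have hl : l = i ∨ l = j ∨ l = m := cases3 i j m l hij him hjm
    rcases hl with rfl | rfl | rfl
    · change IsSquare (((b l : ℚ_[2]) + X - b l) * (d l : ℚ_[2]))
      rw [e1]
      exact hXd
    · change IsSquare (((b i : ℚ_[2]) + X - b l) * (d l : ℚ_[2]))
      rw [e3]
      obtain ⟨t, ht⟩ := hXd
      obtain ⟨q, hq⟩ := hdd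
      have hdi : (d i : ℚ_[2]) ≠ 0 := Int.cast_ne_zero.2 (hd i)
      have ht0 : X * (d i : ℚ_[2]) ≠ 0 := mul_ne_zero hX0 hdi
      refine ⟨r1 * t * q / (X * (d i : ℚ_[2])), ?_⟩
      rw [div_mul_div_comm, eq_div_iff (mul_ne_zero ht0 ht0)]
      push_cast at hq
      calc (X + ((b i : ℚ_[2]) - b l)) * (d l : ℚ_[2]) * (X * (d i : ℚ_[2]) * (X * (d i : ℚ_[2])))
          = (X * (X + ((b i : ℚ_[2]) - b l))) * (X * (d i : ℚ_[2])) * ((d i : ℚ_[2]) * d l) := by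
            ring
        _ = (r1 * r1) * (t * t) * (q * q) := by rw [hr1, ht, hq]
        _ = _ := by ring
    · change IsSquare (((b i : ℚ_[2]) + X - b l) * (d l : ℚ_[2]))
      rw [e2]
      exact sq_mul ⟨P, pow_two P⟩ hm

/-- the class of a number of norm `1 / 4` plus one -/
theorem five (z : ℚ_[2]) (h : ‖z‖ = 1 / 4) : IsSquare (5 * (1 + z)) := by
  have n2 : ‖(2 : ℚ_[2])‖ = 1 / 2 := by
    have h1 : ((2 : ℕ) : ℚ_[2]) = 2 := by norm_num
    rw [← h1, Padic.norm_p]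
    norm_num
  have n4 : ‖(4 : ℚ_[2])‖ = 1 / 4 := by
    have h1 : (4 : ℚ_[2]) = 2 ^ 2 := by norm_num
    rw [h1, norm_pow, n2]
    norm_num
  have n5 : ‖(5 : ℚ_[2])‖ = 1 := by
    have h1 : ‖((5 : ℤ) : ℚ_[2])‖ = 1 := Padic.norm_intCast_eq_one_iff.2 (by decide)
    exact_mod_cast h1
  -- `u = z / 4` is a unit, `u - 1` is divisible by `2`
  have hu : ‖z / 4‖ = 1 := by
    rw [norm_div, h, n4]
    norm_num
  obtain ⟨u, hu'⟩ : ∃ u : ℤ_[2], (u : ℚ_[2]) = z / 4 := ⟨⟨_, hu.le⟩, rfl⟩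
  have hun : ¬ (2 : ℤ_[2]) ∣ u := by
    intro hdv
    have h1 : ‖u‖ < 1 := by
      obtain ⟨w, rfl⟩ := hdv
      rw [norm_mul]
      have h2 : ‖(2 : ℤ_[2])‖ = 1 / 2 := by
        have h3 : ‖((2 : ℕ) : ℤ_[2])‖ = ((2 : ℕ) : ℝ)⁻¹ := PadicInt.norm_p
        rw [show ((2 : ℤ_[2])) = ((2 : ℕ) : ℤ_[2]) from rfl, h3]
        norm_num
      rw [h2]
      have := PadicInt.norm_le_one w
      linarith
    have h2 : ‖u‖ = ‖(u : ℚ_[2])‖ := PadicInt.norm_def
    rw [h2, hu', hu] at h1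
    exact lt_irrefl _ h1
  have hdv : (2 : ℤ_[2]) ∣ 1 + u := by
    have h1 : PadicInt.toZMod (p := 2) u ≠ 0 := by
      intro h0
      apply hun
      have h2 : u ∈ RingHom.ker (PadicInt.toZMod (p := 2)) := h0
      rw [PadicInt.ker_toZMod, PadicInt.maximalIdeal_eq_span_p, Ideal.mem_span_singleton] at h2
      exact_mod_cast h2
    have h2 : ∀ a : ZMod 2, a ≠ 0 → 1 + a = 0 := by decide
    have h3 : PadicInt.toZMod (p := 2) (1 + u) = 0 := by
      rw [map_add, map_one]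
      exact h2 _ h1
    have h4 : 1 + u ∈ RingHom.ker (PadicInt.toZMod (p := 2)) := h3
    rw [PadicInt.ker_toZMod, PadicInt.maximalIdeal_eq_span_p, Ideal.mem_span_singleton] at h4
    exact_mod_cast h4
  obtain ⟨w, hw⟩ := hdv
  refine (sq8 _ ?_).1
  have h2 : ((2 : ℤ_[2]) : ℚ_[2]) = 2 := by
    have := PadicInt.coe_natCast (p := 2) 2
    exact_mod_cast this
  have h3 : (1 : ℚ_[2]) + z / 4 = 2 * (w : ℚ_[2]) := by
    have h4 := congrArg (fun t : ℤ_[2] => (t : ℚ_[2])) hw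
    simp only [PadicInt.coe_add, PadicInt.coe_mul, PadicInt.coe_one, h2] at h4
    rw [← hu']
    exact h4
  have h4 : 5 * (1 + z) - 1 = 8 * (5 * (w : ℚ_[2]) - 2) := by
    linear_combination 20 * h3
  have h8 : ‖(8 : ℚ_[2])‖ = 1 / 8 := by
    have h1 : (8 : ℚ_[2]) = 2 ^ 3 := by norm_num
    rw [h1, norm_pow, n2]
    norm_num
  have h5 : ‖5 * (w : ℚ_[2]) - 2‖ ≤ 1 := by
    have h6 : 5 * (w : ℚ_[2]) - 2 = ((5 * w - 2 : ℤ_[2]) : ℚ_[2]) := by
      have h7 : ((5 : ℤ_[2]) : ℚ_[2]) = 5 := by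
        have := PadicInt.coe_natCast (p := 2) 5
        exact_mod_cast this
      rw [PadicInt.coe_sub, PadicInt.coe_mul, h7, h2]
    rw [h6]
    exact PadicInt.norm_le_one _
  rw [h4, norm_mul, h8]
  linarith

/-- norms which are less than `1 / 2` are at most `1 / 8` or equal to `1 / 4` -/
theorem disc (z : ℚ_[2]) (h : ‖z‖ < 1 / 2) : ‖z‖ ≤ 1 / 8 ∨ ‖z‖ = 1 / 4 := by
  by_cases h0 : z = 0
  · left
    rw [h0, norm_zero]
    norm_num
  · rw [Padic.norm_eq_zpow_neg_valuation h0] at h ⊢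
    have h2 : (((2 : ℕ) : ℝ)) = 2 := by norm_num
    rw [h2] at h ⊢
    have h3 : (1 / 2 : ℝ) = 2 ^ (-1 : ℤ) := by norm_num
    rw [h3, zpow_lt_zpow_iff_right₀ (by norm_num)] at h
    rcases lt_or_eq_of_le (show -z.valuation ≤ -2 by omega) with h4 | h4
    · left
      have h5 : (1 / 8 : ℝ) = 2 ^ (-3 : ℤ) := by norm_num
      rw [h5, zpow_le_zpow_iff_right₀ (by norm_num)]
      omega
    · right
      rw [h4]
      norm_num

theorem even_of_norm (d : ℤ) (hd : d ≠ 0) (t : ℚ_[2]) (h : ‖(d : ℚ_[2])‖ = ‖t‖ ^ 2) :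
    Even (padicValInt 2 d) := by
  have hd0 : (d : ℚ_[2]) ≠ 0 := Int.cast_ne_zero.2 hd
  have ht0 : t ≠ 0 := by
    rintro rfl
    rw [norm_zero, zero_pow two_ne_zero, norm_eq_zero] at h
    exact hd0 h
  rw [Padic.norm_eq_zpow_neg_valuation hd0, Padic.norm_eq_zpow_neg_valuation ht0,
    Padic.valuation_intCast, ← zpow_natCast, ← zpow_mul] at h
  have h2 := zpow_right_injective₀ (a := ((2 : ℕ) : ℝ)) (by norm_num) (by norm_num) h
  have h3 : (padicValInt 2 d : ℤ) = 2 * t.valuation := by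
    have : ((2 : ℕ) : ℤ) = 2 := rfl
    omega
  rw [← Int.even_coe_nat, h3]
  exact even_two_mul _

/-- the case of the class of `5` -/
theorem five_case (b : Fin 3 → ℤ) (i j m : Fin 3) (hij : i ≠ j) (him : i ≠ m) (hjm : j ≠ m)
    (hb : Function.Injective b) (h5 : IsSquare ((5 * (b i - b m) : ℤ) : ℚ_[2]))
    (h16 : ‖((b i - b j : ℤ) : ℚ_[2])‖ ≤ ‖((16 * (b i - b m) : ℤ) : ℚ_[2])‖)
    (d : Fin 3 → ℤ) (hd : ∀ j, d j ≠ 0) (hm : IsSquare ((d m : ℤ) : ℚ_[2]))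
    (hdd : IsSquare ((d i * d j : ℤ) : ℚ_[2])) (hev : Even (padicValInt 2 (d i))) :
    LocJ ℚ_[2] b d := by
  have n2 : ‖(2 : ℚ_[2])‖ = 1 / 2 := by
    have h1 : ((2 : ℕ) : ℚ_[2]) = 2 := by norm_num
    rw [← h1, Padic.norm_p]
    norm_num
  have nodd : ∀ z : ℤ, IsCoprime z ((2 : ℕ) : ℤ) → ‖(z : ℚ_[2])‖ = 1 := fun z hz =>
    Padic.norm_intCast_eq_one_iff.2 hz
  rcases cls (d i) (hd i) hev with h | h | h | h
  · refine point b i j m hij him hjm hb h5 h16 d hd hm hdd (1 / 16) ?_ ⟨9 / 4, by norm_num⟩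
      (by norm_num) ?_
    · have h1 : (1 / 16 : ℚ_[2]) = ((2 : ℚ_[2]) ^ 4)⁻¹ := by norm_num
      rw [h1, norm_inv, norm_pow, n2]
      norm_num
    · exact sq_mul ⟨1 / 4, by norm_num⟩ h
  · refine point b i j m hij him hjm hb h5 h16 d hd hm hdd (-1) ?_ ⟨2, by norm_num⟩
      (by norm_num) ?_
    · rw [norm_neg, norm_one]
    · push_cast at h
      rwa [mul_comm] at h
  · refine point b i j m hij him hjm hb h5 h16 d hd hm hdd 11 ?_ ⟨4, by norm_num⟩
      (by norm_num) ?_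
    · have h1 := nodd 11 (by decide)
      push_cast at h1
      rw [h1]
    · push_cast at h
      rwa [mul_comm] at h
  · refine point b i j m hij him hjm hb h5 h16 d hd hm hdd (5 / 4) ?_ ⟨5 / 2, by norm_num⟩
      (by norm_num) ?_
    · have h1 := nodd 5 (by decide)
      push_cast at h1
      have h2 : (4 : ℚ_[2]) = 2 ^ 2 := by norm_num
      rw [norm_div, h1, h2, norm_pow, n2]
      norm_num
    · push_cast at h
      have h1 : (5 / 4 : ℚ_[2]) * (d i : ℚ_[2]) = (1 / 4) * ((d i : ℚ_[2]) * 5) := by ring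
      rw [h1]
      exact sq_mul ⟨1 / 2, by norm_num⟩ h

/-- **Job TPT.** -/
theorem t_TPT : Pool.Agent.Q274.HD.S_TPT := by
  intro b i j m hij him hjm hb hmid d hd hm hdd hpq
  obtain ⟨hns, h16⟩ := hmid i j him hjm hij
  obtain ⟨p, q, hne, hsq⟩ := hpq
  have n2 : ‖(2 : ℚ_[2])‖ = 1 / 2 := by
    have h1 : ((2 : ℕ) : ℚ_[2]) = 2 := by norm_num
    rw [← h1, Padic.norm_p]
    norm_num
  have n16 : ‖(16 : ℚ_[2])‖ = 1 / 16 := by
    have h1 : (16 : ℚ_[2]) = 2 ^ 4 := by norm_num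
    rw [h1, norm_pow, n2]
    norm_num
  have hδ0 : (b i : ℚ_[2]) - b m ≠ 0 := by
    rw [sub_ne_zero]
    exact fun h => him (hb (Int.cast_injective h))
  have hdi : (d i : ℚ_[2]) ≠ 0 := Int.cast_ne_zero.2 (hd i)
  have hcast : ((b i - b m : ℤ) : ℚ_[2]) = (b i : ℚ_[2]) - b m := by push_cast; ring
  rw [hcast] at hne hsq hns
  by_cases hq : q = 0
  · -- `d i` is a square
    rw [hq] at hne hsq
    have hp : p ≠ 0 := by
      rintro rfl
      apply hne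
      ring
    have h1 : IsSquare ((d i : ℤ) : ℚ_[2]) := by
      obtain ⟨r, hr⟩ := hsq
      refine ⟨r / p, ?_⟩
      rw [div_mul_div_comm, eq_div_iff (mul_ne_zero hp hp), ← hr]
      ring
    have h2 : IsSquare ((d j : ℤ) : ℚ_[2]) := by
      obtain ⟨r, hr⟩ := h1
      obtain ⟨t, ht⟩ := hdd
      have hr0 : r ≠ 0 := by
        rintro rfl
        rw [mul_zero] at hr
        exact hdi hr
      refine ⟨t / r, ?_⟩
      rw [div_mul_div_comm, eq_div_iff (mul_ne_zero hr0 hr0), ← ht, ← hr]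
      push_cast
      ring
    apply pt_LocJ
    refine (Q182.JQ.ELL.Pt_one (Q182.JQ.ELL.H3_padic 2) _).congr (fun _ => one_ne_zero) fun l => ?_
    rw [one_mul]
    rcases cases3 i j m l hij him hjm with rfl | rfl | rfl
    · exact h1
    · exact h2
    · exact hm
  · -- `X = P ^ 2 - δ`
    obtain ⟨P, hP0, hX0, hXd⟩ : ∃ P : ℚ_[2], P ≠ 0 ∧ P ^ 2 - ((b i : ℚ_[2]) - b m) ≠ 0 ∧
        IsSquare ((P ^ 2 - ((b i : ℚ_[2]) - b m)) * (d i : ℚ_[2])) := by
      by_cases hp : p = 0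
      · rw [hp] at hsq
        -- replace `0` by `4 δ`
        have hδ1 : ‖(b i : ℚ_[2]) - b m‖ ≤ 1 := by
          rw [← hcast]
          exact nint _
        have h1 : ‖(1 - 16 * ((b i : ℚ_[2]) - b m)) - 1‖ ≤ 1 / 8 := by
          rw [show (1 - 16 * ((b i : ℚ_[2]) - b m)) - 1 = -(16 * ((b i : ℚ_[2]) - b m)) by ring,
            norm_neg, norm_mul, n16]
          linarith
        obtain ⟨⟨r, hr⟩, h3⟩ := sq8 _ h1
        refine ⟨4 * ((b i : ℚ_[2]) - b m), mul_ne_zero (by norm_num) hδ0, ?_, ?_⟩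
        · have h4 : (4 * ((b i : ℚ_[2]) - b m)) ^ 2 - ((b i : ℚ_[2]) - b m) =
              -((b i : ℚ_[2]) - b m) * (1 - 16 * ((b i : ℚ_[2]) - b m)) := by ring
          rw [h4]
          exact mul_ne_zero (neg_ne_zero.2 hδ0) h3
        · obtain ⟨s, hs⟩ := hsq
          refine ⟨r * s / q, ?_⟩
          rw [div_mul_div_comm, eq_div_iff (mul_ne_zero hq hq)]
          have h5 : r * s * (r * s) = (r * r) * (s * s) := by ring
          rw [h5, ← hr, ← hs]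
          ring
      · refine ⟨p / q, div_ne_zero hp hq, ?_, ?_⟩
        · intro h0
          apply hne
          have h1 : p ^ 2 - ((b i : ℚ_[2]) - b m) * q ^ 2 =
              ((p / q) ^ 2 - ((b i : ℚ_[2]) - b m)) * q ^ 2 := by
            field_simp
          rw [h1, h0, zero_mul]
        · obtain ⟨s, hs⟩ := hsq
          refine ⟨s / q, ?_⟩
          rw [div_mul_div_comm, ← hs]
          field_simp
    set δ : ℚ_[2] := (b i : ℚ_[2]) - b m with hδ
    set X : ℚ_[2] := P ^ 2 - δ with hX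
    have hXP : X + δ = P ^ 2 := by rw [hX]; ring
    have hβn : ‖(b i : ℚ_[2]) - b j‖ ≤ 1 / 16 * ‖δ‖ := by
      push_cast at h16
      rw [norm_mul, n16] at h16
      exact h16
    have hδn : 0 < ‖δ‖ := norm_pos_iff.2 hδ0
    have hXn : 0 < ‖X‖ := norm_pos_iff.2 hX0
    rcases le_or_gt (1 / 2 * ‖δ‖) ‖X‖ with hle | hlt
    · have h1 : ‖(1 + ((b i : ℚ_[2]) - b j) / X) - 1‖ ≤ 1 / 8 := by
        rw [add_sub_cancel_left, norm_div, div_le_iff₀ hXn]
        linarith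
      obtain ⟨⟨r, hr⟩, h3⟩ := sq8 _ h1
      refine point2 b i j m hij him hjm d hd hm hdd X P hX0 hP0 hXP ⟨X * r, ?_⟩ ?_ hXd
      · have h4 : X * (X + ((b i : ℚ_[2]) - b j)) = X ^ 2 * (1 + ((b i : ℚ_[2]) - b j) / X) := by
          field_simp
        rw [h4, hr]
        ring
      · intro h0
        apply h3
        have h4 : 1 + ((b i : ℚ_[2]) - b j) / X = (X + ((b i : ℚ_[2]) - b j)) / X := by
          field_simp
        rw [h4, h0, zero_div]
    · have hz : ‖X / δ‖ < 1 / 2 := by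
        rw [norm_div, div_lt_iff₀ hδn]
        exact hlt
      have hδP : δ * (1 + X / δ) = P ^ 2 := by
        rw [← hXP]
        field_simp
        ring
      rcases disc _ hz with h8 | h4
      · exfalso
        obtain ⟨⟨r, hr⟩, h3⟩ := sq8 (1 + X / δ) (by rwa [add_sub_cancel_left])
        apply hns
        have hr0 : r ≠ 0 := by
          rintro rfl
          rw [mul_zero] at hr
          exact h3 hr
        refine ⟨P / r, ?_⟩
        rw [div_mul_div_comm, eq_div_iff (mul_ne_zero hr0 hr0), ← hr, hδP]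
        ring
      · have h1 : 1 + X / δ ≠ 0 := by
          intro h0
          rw [h0, mul_zero] at hδP
          exact hP0 (pow_eq_zero_iff two_ne_zero |>.1 hδP.symm)
        have hγ : IsSquare ((5 * (b i - b m) : ℤ) : ℚ_[2]) := by
          obtain ⟨r, hr⟩ := five _ h4
          refine ⟨P * r / (1 + X / δ), ?_⟩
          rw [div_mul_div_comm, eq_div_iff (mul_ne_zero h1 h1)]
          push_cast
          rw [← hδ]
          have h5 : P * r * (P * r) = P ^ 2 * (r * r) := by ring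
          rw [h5, ← hr, ← hδP]
          ring
        refine five_case b i j m hij him hjm hb hγ h16 d hd hm hdd ?_
        -- the valuation of `d i`
        obtain ⟨s, hs⟩ := hXd
        obtain ⟨g, hg⟩ := hγ
        have n5 : ‖(5 : ℚ_[2])‖ = 1 := by
          have h1 : ‖((5 : ℤ) : ℚ_[2])‖ = 1 := Padic.norm_intCast_eq_one_iff.2 (by decide)
          exact_mod_cast h1
        have hg0 : g ≠ 0 := by
          rintro rfl
          push_cast at hg
          rw [← hδ, mul_zero] at hg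
          exact mul_ne_zero (by norm_num) hδ0 hg
        have hgn : ‖δ‖ = ‖g‖ ^ 2 := by
          have h2 : ‖(5 : ℚ_[2]) * δ‖ = ‖g * g‖ := by
            congr 1
            push_cast at hg
            rw [← hδ] at hg
            exact hg
          rw [norm_mul, n5, one_mul, norm_mul] at h2
          rw [h2]
          ring
        have hXn2 : ‖X‖ = 1 / 4 * ‖g‖ ^ 2 := by
          rw [norm_div, div_eq_iff hδn.ne'] at h4
          rw [h4, hgn]
        have hgp : 0 < ‖g‖ := norm_pos_iff.2 hg0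
        refine even_of_norm (d i) (hd i) (s / (2 * g)) ?_
        have h2 : ‖X‖ * ‖(d i : ℚ_[2])‖ = ‖s‖ ^ 2 := by
          rw [← norm_mul, hs, norm_mul]
          ring
        rw [hXn2] at h2
        rw [norm_div, norm_mul, n2, div_pow, ← h2]
        field_simp
        ring

end Pool.Agent.Q111.HD
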